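import Pool.Agent.R329.LitGen

/-! # MP_0ea415_nt: codes which are typical for a generic shift invariant measure

Let `α` be irrational with partial quotients `a k` (`pq α k`) and convergents
`p_{k-1} / q_{k-1} = num α k / den α k`, and let `β = ∑ k, x k * (q_{k-1} α - p_{k-1})` be a digit
expansion.  The pair `(α, β)` has the code `(a (k + 1), x (k + 1))`.  We consider the codes with `m`
different letters, that is, the sequences of `m` symbols, and the compact space `Inv m` of the shift
invariant probability measures on these sequences, with the weak topology. We show: for all measures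
of a dense `G_δ` subset of `Inv m`, almost every sequence is (for every choice of the letters) the
code of pairs for which the Littlewood conjecture holds.  Generic invariant measures have entropy
zero, so this case is not covered by the theorem of Einsiedler, Katok and Lindenstrauss. -/

set_option autoImplicit false

open MeasureTheory

namespace Pool.Agent.Results.MP_0ea415_nt.GenericMeasures

open Pool.Agent.H380R2.LC

/-- Littlewood's conjecture for the pair `(α, β)` (the form of the frozen statement). -/
def Littlewood (α β : ℝ) : Prop :=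
  ∀ ε : ℝ, 0 < ε → ∀ N : ℕ, ∃ q : ℕ, N ≤ q ∧ 0 < q ∧
    (q : ℝ) * |(q : ℝ) * α - (round ((q : ℝ) * α) : ℝ)|
      * |(q : ℝ) * β - (round ((q : ℝ) * β) : ℝ)| < ε

/-- the shift of the sequences of `m` symbols -/
def shift (m : ℕ) (ω : ℕ → Fin m) : ℕ → Fin m := fun k => ω (k + 1)

/-- The shift invariant probability measures, with the weak topology. -/
abbrev Inv (m : ℕ) : Type :=
  {μ : ProbabilityMeasure (ℕ → Fin m) //
    MeasurePreserving (shift m) (μ : Measure (ℕ → Fin m)) μ}

/-- Littlewood's conjecture holds for all pairs `(α, β)` with the code `w`: `α` is irrational with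
the partial quotients `(w 0).1, (w 1).1, ...` (besides the integer part), and
`β = ∑ k, x k * (q_{k-1} α - p_{k-1})` with `x (k + 1) = (w k).2`. -/
def CodeLC (w : ℕ → ℤ × ℤ) : Prop :=
  ∀ (α β : ℝ) (x : ℕ → ℤ), Irrational α → (∀ k, (pq α (k + 1), x (k + 1)) = w k) →
    HasSum (fun k => (x k : ℝ) * (den α k * α - num α k)) β → Littlewood α β

theorem result (m : ℕ) : ∃ G : Set (Inv m), IsGδ G ∧ Dense G ∧
    ∀ μ ∈ G, ∀ᵐ ω ∂(μ.1 : Measure (ℕ → Fin m)), ∀ c : Fin m → ℤ × ℤ,
      CodeLC (fun k => c (ω k)) := by
  obtain ⟨G, h1, h2, h3⟩ := Pool.Agent.R329.LitCodes.generic m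
  refine ⟨G, h1, h2, fun μ hμ => ?_⟩
  filter_upwards [h3 μ hμ] with ω hω
  intro c
  refine Pool.Agent.R329.LitCodes.codeLC_of_blocks (∑ i, |((c i).2 : ℝ)|) (fun k => ?_) fun s => ?_
  · exact Finset.single_le_sum (f := fun i => |((c i).2 : ℝ)|) (fun _ _ => abs_nonneg _)
      (Finset.mem_univ (ω k))
  · obtain ⟨n, u, hn, hk⟩ := hω s
    refine ⟨n, u, 1, hn, Or.inl rfl, fun k hk' => ?_⟩
    simp only [Pool.Agent.R329.LitCodes.tw, one_mul, hk k hk']

end Pool.Agent.Results.MP_0ea415_nt.GenericMeasures
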