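import Pool.Agent.R329.LitRecB

/-! # MP_0ea415_nt: codes with reciprocal linear recurrences

Let `α = a₀ + 1 / (b 1 - 1 / (b 2 - ...))` be the backward continued fraction of `α`, with
denominators `q k`, and let `n k` be integers with `|q k β - n k| ≤ B`, for instance the nearest
integers.  The pair `(α, β)` has the code `(b (k + 1), z k)`, where
`z k = n (k + 2) + n k - b (k + 1) n (k + 1)`; for a digit expansion `β = ∑ x k (q k α - p k)` one
can take `z k = x (k + 1)`.  We show: suppose that the code contains words on which `b` has a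
period `r` and `z` satisfies a reciprocal linear recurrence with step `r`,
`∑ c j z (k + j r) = 0` with `c (2 g - j) = c j`, for `g r + s (1 + log₂ ∑ |c j|)` consecutive
indices `k`, for every `s`, where the polynomial `∑ c j X ^ j` does not annihilate the matrix of the
period. Then the Littlewood conjecture holds for `(α, β)`. The order `2 g`, the coefficients and
the period may vary with the word and are not bounded; so the recurrence holds only for a third
part of the word.  The polynomials `(X - 1) ^ 2` and `(X + 1) ^ 2` give words of period `r`, up to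
signs, and length `3 r + s`; a recurrence which is not reciprocal can be multiplied by the
reciprocal polynomial. -/

set_option autoImplicit false

open Finset

namespace Pool.Agent.Results.MP_0ea415_nt.ReciprocalRecurrences

/-- Littlewood's conjecture for the pair `(α, β)` (the form of the frozen statement). -/
def Littlewood (α β : ℝ) : Prop :=
  ∀ ε : ℝ, 0 < ε → ∀ N : ℕ, ∃ q : ℕ, N ≤ q ∧ 0 < q ∧
    (q : ℝ) * |(q : ℝ) * α - (round ((q : ℝ) * α) : ℝ)|
      * |(q : ℝ) * β - (round ((q : ℝ) * β) : ℝ)| < ε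

/-- `α = a₀ + 1 / (b 1 - 1 / (b 2 - ...))` with denominators `q k` and remainders
`D k = q k α - p k`, `1 = D 0 > D 1 > D 2 > ... > 0`. -/
structure Backward (α : ℝ) (a₀ : ℤ) (b q : ℕ → ℤ) (D : ℕ → ℝ) : Prop where
  D_zero : D 0 = 1
  D_one : D 1 = α - a₀
  D_rec : ∀ k, D (k + 2) = b (k + 1) * D (k + 1) - D k
  D_pos : ∀ k, 0 < D (k + 1)
  D_lt : ∀ k, D (k + 1) < D k
  q_zero : q 0 = 0
  q_one : q 1 = 1
  q_rec : ∀ k, q (k + 2) = b (k + 1) * q (k + 1) - q k

/-- the second component of the code -/
def code (b n : ℕ → ℤ) (k : ℕ) : ℤ := n (k + 2) + n k - b (k + 1) * n (k + 1)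

/-- the matrix of the word `b (l + 1), ..., b (l + r)` -/
def wordMatrix (b : ℕ → ℤ) (l : ℕ) : ℕ → Matrix (Fin 2) (Fin 2) ℤ
  | 0 => 1
  | r + 1 => !![0, 1; -1, b (l + r + 1)] * wordMatrix b l r

/-- The word of length `2 g r + N` of the code which starts at `l` satisfies the reciprocal linear
recurrence with step `r` and coefficients `c 0, ..., c (2 g)`, and is long. -/
structure Recurrent (b n c : ℕ → ℤ) (s g r l N : ℕ) : Prop where
  reciprocal : ∀ j, j ≤ 2 * g → c (2 * g - j) = c j
  long : g * r + s * (1 + Nat.log 2 (∑ j ∈ range (2 * g + 1), (c j).natAbs)) ≤ N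
  periodic : ∀ k, l ≤ k → k + r < l + 2 * g * r + N → b (k + r + 1) = b (k + 1)
  nonzero : ∑ j ∈ range (2 * g + 1), c j • wordMatrix b l r ^ j ≠ 0
  recurrence : ∀ k, l ≤ k → k < l + N →
    ∑ j ∈ range (2 * g + 1), c j * code b n (k + j * r) = 0

theorem result (α : ℝ) (a₀ : ℤ) (b q : ℕ → ℤ) (D : ℕ → ℝ) (E : Backward α a₀ b q D) (β B : ℝ)
    (h : ∀ s : ℕ, ∃ (n c : ℕ → ℤ) (g r l N : ℕ), (∀ k, |(q k : ℝ) * β - n k| ≤ B) ∧
      Recurrent b n c s g r l N) :
    ∀ u v u' v' : ℚ, Littlewood (u + v * α) (u' + v' * β) := by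
  intro u v u' v'
  have E' : Pool.Agent.W13.LM.Exp α a₀ b q D :=
    ⟨E.D_zero, E.D_one, E.D_rec, E.D_pos, E.D_lt, E.q_zero, E.q_one, E.q_rec⟩
  have hPm : ∀ l r, wordMatrix b l r = Pool.Agent.R329.LitRec.Pm b l r := by
    intro l r
    induction r with
    | zero => rfl
    | succ r ih =>
      show !![0, 1; -1, b (l + r + 1)] * wordMatrix b l r
        = !![0, 1; -1, b (l + r + 1)] * Pool.Agent.R329.LitRec.Pm b l r
      rw [ih]
  refine (Pool.Agent.R329.LitRec.rec_lc E' β B ?_).rat u v u' v'
  intro s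
  obtain ⟨n, c, g, r, l, N, hn, R⟩ := h s
  refine ⟨n, g, r, l, N, c, hn, R.reciprocal, R.long, R.periodic, ?_, ?_⟩
  · rw [← hPm]
    exact R.nonzero
  · intro k hk1 hk2
    exact R.recurrence k hk1 hk2

end Pool.Agent.Results.MP_0ea415_nt.ReciprocalRecurrences
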