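import Pool.Agent.R329.LitRot

/-! # MP_0ea415_nt: codes given by rotations and step functions

Let `α` be irrational with partial quotients `a k` (`pq α k`) and convergents
`p_{k-1} / q_{k-1} = num α k / den α k`, and let `β = ∑ k, x k * (q_{k-1} α - p_{k-1})` be a digit
expansion.  The pair `(α, β)` has the code `(a (k + 1), x (k + 1))`.  Let `θ` be irrational and let
`F` be a step function on the circle `ℝ / ℤ` with values in `ℤ × ℤ` and at most `d`
discontinuities.  We show: if `liminf n ‖n θ‖ < 1 / (2 d)`, in particular if `θ` is not badly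
approximable (so for almost all `θ`, and every `d`), then the Littlewood conjecture holds for all
pairs with the code `F (y + k θ)`, for every `y`. -/

set_option autoImplicit false

namespace Pool.Agent.Results.MP_0ea415_nt.RotationCodings

open Pool.Agent.H380R2.LC

/-- Littlewood's conjecture for the pair `(α, β)` (the form of the frozen statement). -/
def Littlewood (α β : ℝ) : Prop :=
  ∀ ε : ℝ, 0 < ε → ∀ N : ℕ, ∃ q : ℕ, N ≤ q ∧ 0 < q ∧
    (q : ℝ) * |(q : ℝ) * α - (round ((q : ℝ) * α) : ℝ)|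
      * |(q : ℝ) * β - (round ((q : ℝ) * β) : ℝ)| < ε

/-- `F` has period one and finitely many values, and it is constant on all intervals which contain
no element of `D + ℤ`. -/
structure StepFunction (D : Finset ℝ) (F : ℝ → ℤ × ℤ) : Prop where
  periodic : ∀ y, F (y + 1) = F y
  finite : (Set.range F).Finite
  const : ∀ u v : ℝ, u ≤ v → (∀ d ∈ D, ∀ m : ℤ, ¬ (u ≤ d + m ∧ d + m ≤ v)) → F u = F v

theorem result (θ : ℝ) (hθ : Irrational θ) (D : Finset ℝ) (F : ℝ → ℤ × ℤ) (S : StepFunction D F)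
    -- `liminf n ‖n θ‖ < 1 / (2 d)`
    (κ : ℝ) (hκ : 2 * D.card * κ < 1)
    (hlim : ∀ N : ℕ, ∃ n : ℕ, N ≤ n ∧ (n : ℝ) * |n * θ - (round (n * θ) : ℝ)| ≤ κ)
    -- the pair
    (y α β : ℝ) (hα : Irrational α) (x : ℕ → ℤ)
    (hcode : ∀ k : ℕ, (pq α (k + 1), x (k + 1)) = F (y + k * θ))
    (hβ : HasSum (fun k => (x k : ℝ) * (den α k * α - num α k)) β) : Littlewood α β := by
  obtain ⟨X, hX⟩ : ∃ X : ℝ, ∀ y, |((F y).2 : ℝ)| ≤ X := by
    obtain ⟨X, hX⟩ := (S.finite.image fun p : ℤ × ℤ => |(p.2 : ℝ)|).bddAbove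
    exact ⟨X, fun y => hX ⟨F y, ⟨y, rfl⟩, rfl⟩⟩
  have S' : Pool.Agent.R329.LitCodes.Step D F := ⟨S.periodic, S.const⟩
  refine Pool.Agent.R329.LitCodes.rot_code hθ S' X hX (fun s => ?_) y α β x hα hcode hβ
  have hκ0 : 0 ≤ κ := by
    obtain ⟨n, -, h⟩ := hlim 0
    exact le_trans (by positivity) h
  obtain ⟨N, hN⟩ := exists_nat_gt (D.card * s * κ / (1 - 2 * D.card * κ))
  obtain ⟨n, hn1, hn2⟩ := hlim (N + 1)
  refine ⟨n, by omega, ?_⟩
  set δ := |(n : ℝ) * θ - (round (n * θ) : ℝ)| with hδ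
  have hδ0 : 0 ≤ δ := abs_nonneg _
  have hn : (N : ℝ) + 1 ≤ n := by exact_mod_cast hn1
  have hn0 : (0 : ℝ) < n := by
    have : (0 : ℝ) ≤ N := by positivity
    linarith
  have h1 : 0 < 1 - 2 * D.card * κ := by linarith
  rw [div_lt_iff₀ h1] at hN
  have h2 : D.card * s * κ < n * (1 - 2 * D.card * κ) := by
    refine hN.trans ?_
    gcongr
    linarith
  have h3 : n * ((D.card * (2 * n + s) : ℝ) * δ) < n * 1 := by
    calc n * ((D.card * (2 * n + s) : ℝ) * δ) = (D.card * (2 * n + s)) * (n * δ) := by ring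
      _ ≤ (D.card * (2 * n + s)) * κ := by gcongr
      _ = n * (2 * D.card * κ) + D.card * s * κ := by ring
      _ < n * (2 * D.card * κ) + n * (1 - 2 * D.card * κ) := by linarith
      _ = n * 1 := by ring
  exact lt_of_mul_lt_mul_left h3 hn0.le

end Pool.Agent.Results.MP_0ea415_nt.RotationCodings
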