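import Pool.Agent.R329.IET

/-! # MP_0ea415_nt: codes given by symmetric interval exchanges

Let `α = a₀ + 1 / (b 1 - 1 / (b 2 - ...))` be the backward continued fraction of `α`, with
remainders `D k = q k α - p k`, and let `β = ∑ x k * D k` be a digit expansion.  Let `T` be an
interval exchange transformation of `[0, 1)` which reverses the order of its `r ≥ 2` intervals, and
let `y` be a point with a dense orbit (every point, if `T` is minimal).  We show: if the letter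
`(b k, x k)` depends only on the interval which contains `T ^ k y`, then the Littlewood conjecture
holds for `(α, β)`, and for all pairs `(u + v α, u' + v' β)` with rational coefficients. -/

set_option autoImplicit false

namespace Pool.Agent.Results.MP_0ea415_nt.SymmetricIntervalExchanges

/-- Littlewood's conjecture for the pair `(α, β)` (the form of the frozen statement). -/
def Littlewood (α β : ℝ) : Prop :=
  ∀ ε : ℝ, 0 < ε → ∀ N : ℕ, ∃ q : ℕ, N ≤ q ∧ 0 < q ∧
    (q : ℝ) * |(q : ℝ) * α - (round ((q : ℝ) * α) : ℝ)|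
      * |(q : ℝ) * β - (round ((q : ℝ) * β) : ℝ)| < ε

/-- `α = a₀ + 1 / (b 1 - 1 / (b 2 - ...))` with denominators `q k` and remainders
`D k = q k α - p k`, `1 = D 0 > D 1 > D 2 > ... > 0`. -/
structure Backward (α : ℝ) (a₀ : ℤ) (b q : ℕ → ℤ) (D : ℕ → ℝ) : Prop where
  D_zero : D 0 = 1
  D_one : D 1 = α - a₀
  D_rec : ∀ k, D (k + 2) = b (k + 1) * D (k + 1) - D k
  D_pos : ∀ k, 0 < D (k + 1)
  D_lt : ∀ k, D (k + 1) < D k
  q_zero : q 0 = 0
  q_one : q 1 = 1
  q_rec : ∀ k, q (k + 2) = b (k + 1) * q (k + 1) - q k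

/-- `T` exchanges the `r ≥ 2` intervals `[a j, a (j + 1))` of `[0, 1)` and reverses their order: the
interval `[a j, a (j + 1))` is mapped onto `[1 - a (j + 1), 1 - a j)`. -/
structure Reversing (r : ℕ) (a : ℕ → ℝ) (T : ℝ → ℝ) : Prop where
  two_le : 2 ≤ r
  zero : a 0 = 0
  last : a r = 1
  lt : ∀ j, j < r → a j < a (j + 1)
  map : ∀ j, j < r → ∀ x, a j ≤ x → x < a (j + 1) → T x = x + 1 - a j - a (j + 1)

theorem result (r : ℕ) (a : ℕ → ℝ) (T : ℝ → ℝ) (S : Reversing r a T)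
    -- a letter for each interval
    (F : ℝ → ℤ × ℤ) (hF : ∀ j, j < r → ∀ y z, a j ≤ y → y < a (j + 1) → a j ≤ z → z < a (j + 1) →
      F y = F z)
    -- a dense orbit
    (y : ℝ) (hy0 : 0 ≤ y) (hy1 : y < 1)
    (hy : ∀ u v : ℝ, 0 ≤ u → u < v → v ≤ 1 → ∃ k : ℕ, u < T^[k] y ∧ T^[k] y < v)
    -- the pair
    (α : ℝ) (a₀ : ℤ) (b q : ℕ → ℤ) (D : ℕ → ℝ) (E : Backward α a₀ b q D) (x : ℕ → ℤ)
    (hcode : ∀ k, (b k, x k) = F (T^[k] y)) :
    ∀ u v u' v' : ℚ, Littlewood (u + v * α) (u' + v' * ∑' k, (x k : ℝ) * D k) := by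
  intro u v u' v'
  have E' : Pool.Agent.W13.LM.Exp α a₀ b q D :=
    ⟨E.D_zero, E.D_one, E.D_rec, E.D_pos, E.D_lt, E.q_zero, E.q_one, E.q_rec⟩
  have S' : Pool.Agent.R329.IET.Sym r a T := ⟨S.zero, S.last, S.lt, S.map⟩
  exact (S'.lc S.two_le hF hy0 hy1 hy E' hcode).rat u v u' v'

end Pool.Agent.Results.MP_0ea415_nt.SymmetricIntervalExchanges
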